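import Mathlib
import Pool.Agent.Helper48.AA.Goals

/-!
# Project AA (MP_6c0525_nt), packet RGA
-/

set_option autoImplicit false

open Finset

open scoped Classical

namespace Pool.Agent.Helper16.AA

open Pool.Agent.Helper48.AA
open Pool.Agent.Helper10.CB (digit_lt div_not_dvd)

theorem cb_modEq {q k : ℕ} (hq : q.Prime) (h : ¬ q ∣ Nat.centralBinom k) :
    Nat.centralBinom k ≡ Nat.centralBinom (k % q) * Nat.centralBinom (k / q) [MOD q] := by
  have hlt := digit_lt hq h
  have := Fact.mk hq
  have h1 := Choose.choose_modEq_choose_mod_mul_choose_div_nat (n := 2 * k) (k := k) (p := q)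
  have h3 : 2 * k = 2 * (k % q) + q * (2 * (k / q)) := by
    have := Nat.div_add_mod k q
    have h4 : q * (2 * (k / q)) = 2 * (q * (k / q)) := by ring
    omega
  have h2 : (2 * k) / q = 2 * (k / q) := by
    rw [h3, Nat.add_mul_div_left _ _ hq.pos, Nat.div_eq_of_lt hlt, zero_add]
  have h4 : (2 * k) % q = 2 * (k % q) := by
    rw [h3, Nat.add_mul_mod_self_left, Nat.mod_eq_of_lt hlt]
  rw [h2, h4] at h1
  simpa only [Nat.centralBinom_eq_two_mul_choose] using h1

theorem gRGA : StmtRLA → StmtRGA := by
  intro hR q S K b hq hS hSq hSK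
  set A := (range K).filter (fun k => ¬ q ∣ Nat.centralBinom k ∧
    Nat.centralBinom k ≡ b [MOD q]) with hA
  have hcK : A.card ≤ K := by
    calc A.card ≤ (range K).card := card_filter_le _ _
      _ = K := card_range K
  rcases Nat.lt_or_ge S 2 with h2 | h2
  · have : S = 1 := by omega
    subst this
    omega
  have hS3 : S ≤ S ^ 3 := Nat.le_self_pow (by norm_num) S
  have h2S : 2 * S ≤ q := by
    have h4 : 2 * 2 * S ≤ S ^ 3 := by
      calc 2 * 2 * S ≤ S * S * S := Nat.mul_le_mul_right _ (Nat.mul_le_mul h2 h2)
        _ = S ^ 3 := by ring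
    omega
  by_cases hb : q ∣ b
  · have : A = ∅ := by
      rw [hA, filter_eq_empty_iff]
      rintro k - ⟨h1, h3⟩
      exact h1 ((Nat.modEq_zero_iff_dvd).1 (h3.trans ((Nat.modEq_zero_iff_dvd).2 hb)))
    rw [this]
    simp
  rcases lt_or_ge K q with hK | hK
  · have hsub : A ⊆ (range (min K ((q + 1) / 2))).filter
        (fun a => Nat.centralBinom a ≡ b [MOD q]) := by
      intro k hk
      rw [hA, mem_filter, mem_range] at hk
      have h3 := digit_lt hq hk.2.1
      rw [Nat.mod_eq_of_lt (hk.1.trans hK)] at h3
      rw [mem_filter, mem_range]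
      exact ⟨lt_min hk.1 (by omega), hk.2.2⟩
    have h4 := hR q S (min K ((q + 1) / 2)) b hq hS h2S
      (by have := min_le_right K ((q + 1) / 2); omega) hb
    have h5 := card_le_card hsub
    have h6 : min K ((q + 1) / 2) / S * S ≤ K := (Nat.div_mul_le_self _ _).trans (min_le_left _ _)
    calc A.card * S ≤ (min K ((q + 1) / 2) / S + 1 + S ^ 2) * S :=
          Nat.mul_le_mul_right _ (h5.trans h4)
      _ = min K ((q + 1) / 2) / S * S + S + S ^ 3 := by ring
      _ ≤ 16 * K := by omega
  · have := Fact.mk hq
    have hfib : ∀ k' ∈ range (K / q + 1),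
        (A.filter (fun k => k / q = k')).card * S ≤ 3 * q := by
      intro k' _
      rcases (A.filter (fun k => k / q = k')).eq_empty_or_nonempty with h0 | ⟨k0, hk0⟩
      · rw [h0]
        simp
      rw [mem_filter, hA, mem_filter] at hk0
      have hk' : ¬ q ∣ Nat.centralBinom k' := by
        have := div_not_dvd hq hk0.1.2.1
        rwa [hk0.2] at this
      have hk'0 : ((Nat.centralBinom k' : ℕ) : ZMod q) ≠ 0 := by
        rw [Ne, ZMod.natCast_eq_zero_iff]
        exact hk'
      have hb0 : ((b : ℕ) : ZMod q) ≠ 0 := by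
        rw [Ne, ZMod.natCast_eq_zero_iff]
        exact hb
      set b' : ℕ := (((Nat.centralBinom k' : ℕ) : ZMod q)⁻¹ * (b : ZMod q)).val with hb'
      have hb'c : ((b' : ℕ) : ZMod q) = ((Nat.centralBinom k' : ℕ) : ZMod q)⁻¹ * (b : ZMod q) := by
        rw [hb', ZMod.natCast_val, ZMod.cast_id]
      have hb'n : ¬ q ∣ b' := by
        rw [← ZMod.natCast_eq_zero_iff, hb'c]
        exact mul_ne_zero (inv_ne_zero hk'0) hb0
      have h4 := hR q S ((q + 1) / 2) b' hq hS h2S (by omega) hb'n
      have h5 : (A.filter (fun k => k / q = k')).card ≤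
          ((range ((q + 1) / 2)).filter (fun a => Nat.centralBinom a ≡ b' [MOD q])).card := by
        refine card_le_card_of_injOn (fun k => k % q) ?_ ?_
        · intro k hk
          rw [mem_coe, mem_filter, hA, mem_filter] at hk
          rw [mem_coe, mem_filter, mem_range]
          have h6 := digit_lt hq hk.1.2.1
          refine ⟨show k % q < (q + 1) / 2 by omega, ?_⟩
          have h7 := cb_modEq hq hk.1.2.1
          rw [hk.2] at h7
          have h8 : ((Nat.centralBinom (k % q) : ℕ) : ZMod q) *
              ((Nat.centralBinom k' : ℕ) : ZMod q) = (b : ZMod q) := by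
            have h9 := (ZMod.natCast_eq_natCast_iff _ _ q).2 (h7.symm.trans hk.1.2.2)
            push_cast at h9
            exact h9
          apply (ZMod.natCast_eq_natCast_iff _ _ q).1
          rw [hb'c, ← h8]
          field_simp
        · intro k1 hk1 k2 hk2 h12
          rw [mem_coe, mem_filter] at hk1 hk2
          have e1 := Nat.div_add_mod k1 q
          have e2 := Nat.div_add_mod k2 q
          have h12' : k1 % q = k2 % q := h12
          rw [hk1.2, h12'] at e1
          rw [hk2.2] at e2
          exact e1.symm.trans e2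
      have h6 : (q + 1) / 2 / S * S ≤ (q + 1) / 2 := Nat.div_mul_le_self _ _
      calc (A.filter (fun k => k / q = k')).card * S
          ≤ ((q + 1) / 2 / S + 1 + S ^ 2) * S := Nat.mul_le_mul_right _ (h5.trans h4)
        _ = (q + 1) / 2 / S * S + S + S ^ 3 := by ring
        _ ≤ 3 * q := by
          have := hq.two_le
          omega
    have hcard : A.card = ∑ k' ∈ range (K / q + 1), (A.filter (fun k => k / q = k')).card := by
      refine card_eq_sum_card_fiberwise (f := fun k => k / q) ?_
      intro k hk
      rw [mem_coe, hA, mem_filter, mem_range] at hk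
      rw [mem_coe, mem_range]
      exact Nat.lt_succ_of_le (Nat.div_le_div_right hk.1.le)
    rw [hcard, sum_mul]
    calc ∑ k' ∈ range (K / q + 1), (A.filter (fun k => k / q = k')).card * S
        ≤ ∑ _k' ∈ range (K / q + 1), 3 * q := sum_le_sum hfib
      _ = 3 * (K / q * q) + 3 * q := by
        rw [sum_const, card_range, smul_eq_mul]
        ring
      _ ≤ 16 * K := by
        have := Nat.div_mul_le_self K q
        omega

end Pool.Agent.Helper16.AA
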